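import Mathlib

set_option autoImplicit false
set_option linter.unusedSectionVars false
open Finset

namespace Pool.Agent.H.MP_eba1ef_gt

variable {ι : Type} [Fintype ι] [DecidableEq ι] {f : Finset ι → ℝ}

/-- submodular and normalised -/
def SM (f : Finset ι → ℝ) : Prop := f ∅ = 0 ∧ ∀ S T, f (S ∪ T) + f (S ∩ T) ≤ f S + f T

/-- the base polytope -/
def Q (f : Finset ι → ℝ) : Set (ι → ℝ) := {y | ∑ i, y i = f univ ∧ ∀ S, ∑ i ∈ S, y i ≤ f S}

/-- tight sets -/
def Ti (f : Finset ι → ℝ) (y : ι → ℝ) (S : Finset ι) : Prop := ∑ i ∈ S, y i = f S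

/-- the preorder of a point -/
def le (f : Finset ι → ℝ) (y : ι → ℝ) (i j : ι) : Prop := ∀ A, Ti f y A → i ∈ A → j ∈ A

variable {y y' : ι → ℝ}

theorem ti2 (h : SM f) (hy : y ∈ Q f) {S T : Finset ι} (a : Ti f y S) (b : Ti f y T) :
    Ti f y (S ∪ T) ∧ Ti f y (S ∩ T) := by
  have := h.2 S T
  have e := sum_union_inter (s₁ := S) (s₂ := T) (f := y)
  have := hy.2 (S ∪ T)
  have := hy.2 (S ∩ T)
  unfold Ti at *
  constructor <;> linarith

theorem ti_up (h : SM f) (hy : y ∈ Q f) {Y : Finset ι} (u : ∀ i ∈ Y, ∀ j, le f y i j → j ∈ Y) :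
    Ti f y Y := by
  have k : ∀ i ∈ Y, ∀ Z : Finset ι, (∀ j ∈ Z, j ∉ Y) →
      ∃ A, Ti f y A ∧ i ∈ A ∧ ∀ j ∈ Z, j ∉ A := by
    intro i hi Z
    induction Z using Finset.induction_on with
    | empty => exact fun _ => ⟨univ, hy.1, mem_univ _, by simp⟩
    | insert j Z _ ih =>
      intro hZ
      obtain ⟨A, a1, a2, a3⟩ := ih fun j hj => hZ j (mem_insert_of_mem hj)
      have : ¬ le f y i j := fun e => hZ j (mem_insert_self _ _) (u i hi j e)
      unfold le at this
      push Not at this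
      obtain ⟨B, b1, b2, b3⟩ := this
      refine ⟨A ∩ B, (ti2 h hy a1 b1).2, mem_inter.2 ⟨a2, b2⟩, fun l hl hm => ?_⟩
      rcases mem_insert.1 hl with rfl | hl
      · exact b3 (mem_inter.1 hm).2
      · exact a3 l hl (mem_inter.1 hm).1
  have k2 : ∀ Z : Finset ι, Z ⊆ Y → ∃ A, Ti f y A ∧ Z ⊆ A ∧ A ⊆ Y := by
    intro Z
    induction Z using Finset.induction_on with
    | empty => exact fun _ => ⟨∅, by simp [Ti, h.1], by simp, by simp⟩
    | insert i Z _ ih =>
      intro hZ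
      obtain ⟨A, a1, a2, a3⟩ := ih ((subset_insert _ _).trans hZ)
      obtain ⟨B, b1, b2, b3⟩ := k i (hZ (mem_insert_self _ _)) Yᶜ fun j hj => mem_compl.1 hj
      refine ⟨A ∪ B, (ti2 h hy a1 b1).1, insert_subset (mem_union_right _ b2)
        (a2.trans subset_union_left), union_subset a3 fun j hj => ?_⟩
      by_contra e
      exact b3 j (mem_compl.2 e) hj
  obtain ⟨A, a1, a2, a3⟩ := k2 Y subset_rfl
  rwa [← Subset.antisymm a3 a2]

theorem feas (hy : y ∈ Q f) {w : ι → ℝ} (h0 : ∑ i, w i = 0)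
    (hw : ∀ A, Ti f y A → ∑ i ∈ A, w i ≤ 0) : ∃ ε : ℝ, 0 < ε ∧ y + ε • w ∈ Q f := by
  have : ∀ A : Finset ι, ∀ᶠ ε : ℝ in nhdsWithin 0 (Set.Ioi 0),
      ∑ i ∈ A, y i + ε * ∑ i ∈ A, w i ≤ f A := by
    intro A
    by_cases a : Ti f y A
    · filter_upwards [self_mem_nhdsWithin] with ε hε
      have := mul_nonpos_of_nonneg_of_nonpos (le_of_lt hε) (hw A a)
      unfold Ti at a
      linarith
    · have c : Continuous fun ε : ℝ => ∑ i ∈ A, y i + ε * ∑ i ∈ A, w i := by fun_prop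
      have := (c.tendsto 0).eventually_lt_const (u := f A) (by simpa using lt_of_le_of_ne (hy.2 A) a)
      exact (this.mono fun _ h => h.le).filter_mono nhdsWithin_le_nhds
  obtain ⟨ε, h1, h2⟩ := ((Filter.eventually_all.2 this).and self_mem_nhdsWithin).exists
  refine ⟨ε, h2, ?_, fun A => ?_⟩
  · simp [sum_add_distrib, ← mul_sum, h0, hy.1]
  · simpa [sum_add_distrib, ← mul_sum] using h1 A

/-- the vector moving mass from `j` to `i` -/
def ex (i j : ι) : ι → ℝ := fun k => (if k = i then 1 else 0) - (if k = j then 1 else 0)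

omit [Fintype ι] in
theorem ex_sum (i j : ι) (A : Finset ι) :
    ∑ k ∈ A, ex i j k = (if i ∈ A then 1 else 0) - (if j ∈ A then 1 else 0) := by
  simp [ex, sum_sub_distrib]

theorem vert (hy : y ∈ Q f) : ∃ z ∈ Q f, (∀ A, Ti f y A → Ti f z A) ∧
    ∀ i j, le f z i j → le f z j i → i = j := by
  classical
  obtain ⟨F, ⟨z, hz, a, rfl⟩, m⟩ := Set.Finite.exists_maximal (s := {F : Finset (Finset ι) |
    ∃ z ∈ Q f, (∀ A, Ti f y A → Ti f z A) ∧ F = univ.filter (Ti f z)}) (Set.toFinite _)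
    ⟨_, y, hy, fun _ h => h, rfl⟩
  refine ⟨z, hz, a, fun i j h1 h2 => by_contra fun ne => ?_⟩
  obtain ⟨B, hB, mB⟩ := (univ.filter fun A : Finset ι => i ∈ A ∧ j ∉ A).exists_min_image
    (fun A => f A - ∑ k ∈ A, z k) ⟨{i}, by simp [Ne.symm ne]⟩
  simp only [mem_filter, mem_univ, true_and] at hB mB
  obtain ⟨t, ht⟩ : ∃ t, t = f B - ∑ k ∈ B, z k := ⟨_, rfl⟩
  have t0 : 0 ≤ t := by have := hz.2 B; linarith
  have s : ∀ A : Finset ι, ∑ k ∈ A, (z + t • ex i j) k = ∑ k ∈ A, z k +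
      t * ((if i ∈ A then 1 else 0) - (if j ∈ A then 1 else 0)) := fun A => by
    simp [sum_add_distrib, ← mul_sum, ex_sum]
  have k : ∀ A, Ti f z A → Ti f (z + t • ex i j) A := fun A h => by
    unfold Ti
    rw [s, h]
    by_cases c : i ∈ A
    · simp [c, h1 A h c]
    · simp [c, show j ∉ A from fun e => c (h2 A h e)]
  have q : z + t • ex i j ∈ Q f := ⟨by rw [s, hz.1]; simp, fun A => by
    rw [s]
    have := hz.2 A
    by_cases c : i ∈ A <;> by_cases d : j ∈ A <;> simp only [c, d, if_true, if_false]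
    · linarith
    · have := mB A ⟨c, d⟩
      linarith
    · linarith
    · linarith⟩
  have := m ⟨_, q, fun A h => k A (a A h), rfl⟩ fun A h => by
    simp only [mem_filter, mem_univ, true_and] at h ⊢
    exact k A h
  have e : B ∈ univ.filter (Ti f (z + t • ex i j)) := by
    simp only [mem_filter, mem_univ, true_and]
    unfold Ti
    rw [s]
    simp [hB.1, hB.2, ht]
  exact hB.2 (h1 B (mem_filter.1 (this e)).2 hB.1)

open Classical in
/-- alternating up and down closures -/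
noncomputable def X (f : Finset ι → ℝ) (y : ι → ℝ) (R : Finset ι) : ℕ → Finset ι
  | 0 => R
  | k + 1 => if Even k then univ.filter fun j => ∃ i ∈ X f y R k, le f y i j
      else univ.filter fun i => ∃ j ∈ X f y R k, le f y i j

variable {R : Finset ι}

theorem X_ev {k : ℕ} (h : Even k) {j : ι} :
    j ∈ X f y R (k + 1) ↔ ∃ i ∈ X f y R k, le f y i j := by simp [X, h]

theorem X_od {k : ℕ} (h : ¬ Even k) {i : ι} :
    i ∈ X f y R (k + 1) ↔ ∃ j ∈ X f y R k, le f y i j := by simp [X, h]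

theorem X_succ {k : ℕ} {i : ι} (h : i ∈ X f y R k) : i ∈ X f y R (k + 1) := by
  by_cases e : Even k
  · exact (X_ev e).2 ⟨i, h, fun _ _ a => a⟩
  · exact (X_od e).2 ⟨i, h, fun _ _ a => a⟩

theorem X_mono {k l : ℕ} (h : k ≤ l) {i : ι} (a : i ∈ X f y R k) : i ∈ X f y R l := by
  induction h with
  | refl => exact a
  | step _ ih => exact X_succ ih

theorem X_up {k : ℕ} (h : Even k) {i j : ι} (a : i ∈ X f y R (k + 1)) (b : le f y i j) :
    j ∈ X f y R (k + 1) := by
  obtain ⟨l, c, d⟩ := (X_ev h).1 a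
  exact (X_ev h).2 ⟨l, c, fun A e g => b A e (d A e g)⟩

theorem X_dn {k : ℕ} (h : ¬ Even k) {i j : ι} (a : j ∈ X f y R (k + 1)) (b : le f y i j) :
    i ∈ X f y R (k + 1) := by
  obtain ⟨l, c, d⟩ := (X_od h).1 a
  exact (X_od h).2 ⟨l, c, fun A e g => d A e (b A e g)⟩

/-- stage function -/
def St (f : Finset ι → ℝ) (y : ι → ℝ) (R : Finset ι) (s : ι → ℕ) : Prop :=
  ∀ i k, i ∈ X f y R k ↔ s i ≤ k

/-- a good point: antisymmetric preorder and incomparable roots -/
def Gd (f : Finset ι → ℝ) (y : ι → ℝ) (R : Finset ι) : Prop :=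
  y ∈ Q f ∧ ∀ r ∈ R, ∀ r' ∈ R, ∀ i, le f y r' i → le f y i r → i = r

variable {s s' : ι → ℕ}

theorem lev_od (g : Gd f y R) (h : St f y R s) {i j : ι} (b : le f y i j) (o : ¬ Even (s i)) :
    s j = s i := by
  obtain ⟨a, ha⟩ : ∃ a, s i = a + 1 := ⟨s i - 1, by
    rcases Nat.eq_zero_or_pos (s i) with e | e
    · simp [e] at o
    · omega⟩
  have ea : Even a := by rw [ha, Nat.even_add_one] at o; simpa using o
  have i1 := (h i (a + 1)).2 ha.le
  have := (h j _).1 (X_up ea i1 b)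
  by_contra ne
  have j1 := (h j a).2 (by omega)
  rcases a with _ | a
  · obtain ⟨r, c, d⟩ := (X_ev ea).1 i1
    have := (h i 0).1 (g.2 j j1 r c i d b ▸ j1)
    omega
  · have := (h i _).1 (X_dn (Nat.even_add_one.1 ea) j1 b)
    omega

theorem lev_ev (h : St f y R s) {i j : ι} (b : le f y i j) (o : Even (s j)) (p : s j ≠ 0) :
    s i = s j := by
  obtain ⟨a, ha⟩ : ∃ a, s j = a + 2 := ⟨s j - 2, by
    obtain ⟨c, hc⟩ := o
    omega⟩
  have ea : Even a := by
    obtain ⟨c, hc⟩ := o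
    exact ⟨c - 1, by omega⟩
  have := (h i _).1 (X_dn (k := a + 1) (by simp [Nat.even_add_one, ea]) ((h j _).2 ha.le) b)
  by_contra ne
  have := (h j _).1 (X_up ea ((h i (a + 1)).2 (by omega)) b)
  omega

theorem ti_od (m : SM f) (g : Gd f y R) (h : St f y R s) (P : ℕ → Prop) [DecidablePred P] :
    Ti f y (univ.filter fun i => ¬ Even (s i) ∧ P (s i)) :=
  ti_up m g.1 fun i a j b => by
    simp only [mem_filter, mem_univ, true_and] at a ⊢
    rw [lev_od g h b a.1]
    exact a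

theorem ti_ev (m : SM f) (g : Gd f y R) (h : St f y R s) (P : ℕ → Prop) [DecidablePred P] :
    Ti f y (univ.filter fun i => ¬ (Even (s i) ∧ s i ≠ 0 ∧ P (s i))) :=
  ti_up m g.1 fun i a j b => by
    simp only [mem_filter, mem_univ, true_and] at a ⊢
    intro c
    rw [lev_ev h b c.1 c.2.1] at a
    exact a c

theorem sum_X (m : SM f) (g : Gd f y R) (h : St f y R s) (g' : Gd f y' R) (h' : St f y' R s')
    (e : ∀ i, Even (s i) ↔ Even (s' i)) (k : ℕ) :
    ∑ i ∈ X f y R k, y' i = ∑ i ∈ X f y R k, y i := by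
  have z : ∀ i, s i ≠ 0 ↔ s' i ≠ 0 := fun i => by
    have := h i 0
    have := h' i 0
    simp only [X, nonpos_iff_eq_zero] at *
    tauto
  have a1 := ti_od m g h fun n => n ≤ k
  have a2 := ti_od m g h fun n => ¬ n ≤ k
  have a3 := ti_od m g h fun _ => True
  have a4 := ti_od m g' h' fun _ => True
  have b1 := ti_ev m g h fun n => n ≤ k
  have b2 := ti_ev m g h fun n => ¬ n ≤ k
  have b3 := ti_ev m g h fun _ => True
  have b4 := ti_ev m g' h' fun _ => True
  simp only [← e, ← z] at a4 b4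
  have c1 := g'.1.2 (univ.filter fun i => ¬ Even (s i) ∧ s i ≤ k)
  have c2 := g'.1.2 (univ.filter fun i => ¬ Even (s i) ∧ ¬ s i ≤ k)
  have c3 := g'.1.2 (univ.filter fun i => ¬ (Even (s i) ∧ s i ≠ 0 ∧ s i ≤ k))
  have c4 := g'.1.2 (univ.filter fun i => ¬ (Even (s i) ∧ s i ≠ 0 ∧ ¬ s i ≤ k))
  have d1 := g.1.1
  have d2 := g'.1.1
  have x : X f y R k = univ.filter fun i => s i ≤ k := by
    ext i
    simp [h i k]
  have k1 : ∀ w : ι → ℝ, ∑ i with ¬ Even (s i) ∧ True, w i =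
      ∑ i with ¬ Even (s i) ∧ s i ≤ k, w i + ∑ i with ¬ Even (s i) ∧ ¬ s i ≤ k, w i := fun w => by
    simp only [sum_filter, ← sum_add_distrib]
    refine sum_congr rfl fun i _ => ?_
    by_cases u : Even (s i) <;> by_cases v : s i ≤ k <;> simp [u, v]
  have k2 : ∀ w : ι → ℝ, ∑ i with ¬ (Even (s i) ∧ s i ≠ 0 ∧ True), w i + ∑ i, w i =
      ∑ i with ¬ (Even (s i) ∧ s i ≠ 0 ∧ s i ≤ k), w i +
      ∑ i with ¬ (Even (s i) ∧ s i ≠ 0 ∧ ¬ s i ≤ k), w i := fun w => by
    simp only [sum_filter, ← sum_add_distrib]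
    refine sum_congr rfl fun i _ => ?_
    by_cases u : Even (s i) <;> by_cases v : s i ≤ k <;> by_cases t : s i = 0 <;> simp [u, v, t]
  have k3 : ∀ w : ι → ℝ, ∑ i with s i ≤ k, w i =
      ∑ i with ¬ (Even (s i) ∧ s i ≠ 0 ∧ ¬ s i ≤ k), w i -
      ∑ i with ¬ Even (s i) ∧ ¬ s i ≤ k, w i := fun w => by
    simp only [sum_filter, ← sum_sub_distrib]
    refine sum_congr rfl fun i _ => ?_
    by_cases u : Even (s i) <;> by_cases v : s i ≤ k <;> by_cases t : s i = 0 <;> simp [u, v, t]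
  rw [x, k3, k3]
  have := k1 y
  have := k1 y'
  have := k2 y
  have := k2 y'
  unfold Ti at *
  linarith

theorem canon (m : SM f) (g : Gd f y R) (h : St f y R s) (g' : Gd f y' R) (h' : St f y' R s')
    (e : ∀ i, Even (s i) ↔ Even (s' i)) : s = s' := by
  have key : ∀ {y y' : ι → ℝ} {s s' : ι → ℕ}, Gd f y R → St f y R s → Gd f y' R → St f y' R s' →
      (∀ i, Even (s i) ↔ Even (s' i)) → ∀ k, X f y R k = X f y' R k →
      X f y' R (k + 1) ⊆ X f y R (k + 1) := by
    intro y y' s s' g h g' h' e k hk i hi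
    have a := sum_X m g h g' h' e (k + 1)
    by_cases c : Even k
    · have t : Ti f y (X f y R (k + 1)) := ti_up m g.1 fun i a j b => X_up c a b
      obtain ⟨l, p, q⟩ := (X_ev c).1 hi
      exact q _ (a.trans t) (X_succ (hk ▸ p))
    · have t : Ti f y (X f y R (k + 1))ᶜ := ti_up m g.1 fun i a j b =>
        mem_compl.2 fun d => mem_compl.1 a (X_dn c d b)
      obtain ⟨l, p, q⟩ := (X_od c).1 hi
      by_contra n
      refine mem_compl.1 (q _ ?_ (mem_compl.2 n)) (X_succ (hk ▸ p))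
      have u := sum_add_sum_compl (X f y R (k + 1)) y
      have v := sum_add_sum_compl (X f y R (k + 1)) y'
      have := g.1.1
      have := g'.1.1
      unfold Ti at *
      linarith
  have all : ∀ k, X f y R k = X f y' R k := fun k => by
    induction k with
    | zero => rfl
    | succ k ih =>
      exact Subset.antisymm (key g' h' g h (fun i => (e i).symm) k ih.symm) (key g h g' h' e k ih)
  funext i
  exact le_antisymm ((h i _).1 (all _ ▸ (h' i _).2 le_rfl)) ((h' i _).1 (all _ ▸ (h i _).2 le_rfl))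

/-- the weights -/
noncomputable def wt (M : ℝ) (a : ℕ) : ℝ := (if Even a then 1 else -1) * (M⁻¹) ^ a

omit [DecidableEq ι] in
theorem wt_sum (s : ι → ℕ) (Z : Finset ι) {i : ι} (hi : i ∈ Z) (hm : ∀ j ∈ Z, s i ≤ s j) :
    0 < (if Even (s i) then 1 else -1) * ∑ j ∈ Z, wt (Fintype.card ι + 1) (s j) := by
  classical
  obtain ⟨q, hq⟩ : ∃ q : ℝ, q = ((Fintype.card ι : ℝ) + 1)⁻¹ := ⟨_, rfl⟩
  have q0 : 0 < q := by rw [hq]; positivity
  have q1 : (Fintype.card ι : ℝ) * q < 1 := by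
    rw [hq, ← div_eq_mul_inv, div_lt_one (by positivity)]; linarith
  have q2 : q ≤ 1 := by
    rw [hq]; exact inv_le_one_of_one_le₀ (by have := Nat.cast_nonneg (α := ℝ) (Fintype.card ι); linarith)
  rw [mul_sum, ← add_sum_erase _ _ hi]
  have a : ∀ j ∈ Z.erase i, -q ^ (s i + 1) ≤
      (if Even (s i) then 1 else -1) * wt (Fintype.card ι + 1) (s j) := fun j hj => by
    have p := pow_pos q0 (s i + 1)
    have p' := pow_pos q0 (s j)
    unfold wt
    rw [← hq]
    rcases (hm j (mem_of_mem_erase hj)).eq_or_lt with e | e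
    · rw [← e] at p' ⊢
      split_ifs <;> linarith
    · have := pow_le_pow_of_le_one q0.le q2 (show s i + 1 ≤ s j from e)
      split_ifs <;> linarith
  have b := card_nsmul_le_sum _ _ _ a
  have c : (#(Z.erase i) : ℝ) ≤ Fintype.card ι := by exact_mod_cast card_le_univ _
  have d : (if Even (s i) then 1 else -1) * wt (Fintype.card ι + 1) (s i) = q ^ s i := by
    unfold wt
    rw [← hq]
    split_ifs <;> ring
  rw [d]
  rw [nsmul_eq_mul, pow_succ] at b
  have p := pow_pos q0 (s i)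
  nlinarith [mul_le_mul_of_nonneg_right c (mul_pos p q0).le]

theorem sgn_up (h : St f y R s) {Z : Finset ι} (t : Ti f y Z) (d : ∀ r ∈ R, r ∉ Z)
    (n : Z.Nonempty) : ∑ j ∈ Z, wt (Fintype.card ι + 1) (s j) < 0 := by
  obtain ⟨i, hi, hm⟩ := Z.exists_min_image s n
  have := wt_sum s Z hi hm
  rw [if_neg] at this
  · linarith
  intro e
  have i1 := (h i _).2 le_rfl
  rcases a : s i with _ | k
  · exact d i (by rw [a] at i1; exact i1) hi
  · rw [a] at i1 e
    obtain ⟨j, b, c⟩ := (X_od (Nat.even_add_one.1 e)).1 i1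
    have := hm j (c Z t hi)
    have := (h j _).1 b
    omega

theorem sgn_dn (h : St f y R s) {Z : Finset ι} (t : Ti f y Zᶜ) (d : ∀ r ∈ R, r ∉ Z)
    (n : Z.Nonempty) : 0 < ∑ j ∈ Z, wt (Fintype.card ι + 1) (s j) := by
  obtain ⟨i, hi, hm⟩ := Z.exists_min_image s n
  have := wt_sum s Z hi hm
  rw [if_pos] at this
  · linarith
  by_contra e
  have i1 := (h i _).2 le_rfl
  rcases a : s i with _ | k
  · simp [a] at e
  · rw [a] at i1 e
    obtain ⟨j, b, c⟩ := (X_ev (by simpa [Nat.even_add_one] using e)).1 i1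
    have : j ∈ Z := by_contra fun u => mem_compl.1 (c _ t (mem_compl.2 u)) hi
    have := hm j this
    have := (h j _).1 b
    omega

end Pool.Agent.H.MP_eba1ef_gt
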