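import Pool.Agent.H.MP_eba1ef_gt.A

set_option autoImplicit false
set_option linter.unusedSectionVars false
open Finset

namespace Pool.Agent.H.MP_eba1ef_gt

variable {ι : Type} [Fintype ι] [DecidableEq ι] {f : Finset ι → ℝ} {y0 : ι → ℝ}

theorem le_symm (q : y0 ∈ Q f) (h0 : ∀ S, Ti f y0 S → ∀ y ∈ Q f, Ti f y S) {i j : ι}
    (h : le f y0 i j) : le f y0 j i := by
  obtain ⟨ε, e0, e⟩ := feas q (w := ex i j) (by rw [ex_sum]; simp) fun A a => by
    rw [ex_sum]
    by_cases c : i ∈ A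
    · simp [c, h A a c]
    · split_ifs <;> norm_num
  intro A a b
  have := h0 A a _ e
  unfold Ti at this a
  simp only [Pi.add_apply, Pi.smul_apply, smul_eq_mul, sum_add_distrib, ← mul_sum, ex_sum, a, b,
    if_true] at this
  by_contra c
  simp [c, e0.ne'] at this

theorem comb (m : SM f) (q : y0 ∈ Q f) (h0 : ∀ S, Ti f y0 S → ∀ y ∈ Q f, Ti f y S) :
    ∃ (N : Finset ι) (D : Finset (ι → ℝ)), #D ≤ 2 ^ #N ∧
      (∀ v : ι → ℝ, ∃ w : ι → ℝ, (∀ S, Ti f y0 S → ∑ i ∈ S, w i = 0) ∧ ∀ i ∈ N, w i = v i) ∧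
      (∀ w ∈ D, ∀ S, Ti f y0 S → ∑ i ∈ S, w i = 0) ∧
      ∀ y ∈ Q f, ∃ w ∈ D, ∀ A, Ti f y A → ¬ Ti f y0 A → ∑ i ∈ A, w i < 0 := by
  classical
  obtain ⟨ρ, r1, r2⟩ : ∃ ρ : ι → ι, (∀ i, le f y0 i (ρ i)) ∧ ∀ i j, le f y0 i j → ρ i = ρ j := by
    refine ⟨fun i => @Classical.epsilon ι ⟨i⟩ (le f y0 i),
      fun i => Classical.epsilon_spec ⟨i, fun _ _ a => a⟩, fun i j h => ?_⟩
    have : le f y0 i = le f y0 j := funext fun k => propext
      ⟨fun a A b c => a A b (le_symm q h0 h A b c), fun a A b c => a A b (h A b c)⟩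
    simp only [this]
  have r3 : ∀ i, ρ (ρ i) = ρ i := fun i => (r2 _ _ (r1 i)).symm
  have r4 : ∀ (P : ι → Prop) [DecidablePred P], Ti f y0 (univ.filter fun i => P (ρ i)) :=
    fun P _ => ti_up m q fun i a j b => by
      simp only [mem_filter, mem_univ, true_and] at a ⊢
      rwa [← r2 i j b]
  obtain ⟨R, hR⟩ : ∃ R : Finset ι, ∀ r, r ∈ R ↔ ρ r = r := ⟨univ.filter fun r => ρ r = r, by simp⟩
  obtain ⟨L, hL⟩ : ∃ L : (ι → ℝ) → ι → ℝ, ∀ v k, L v k = ∑ i, v i * ex i (ρ i) k := ⟨_, fun _ _ => rfl⟩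
  have l1 : ∀ v (A : Finset ι), ∑ k ∈ A, L v k =
      ∑ i, v i * ((if i ∈ A then 1 else 0) - (if ρ i ∈ A then 1 else 0)) := fun v A => by
    simp only [hL]
    rw [sum_comm]
    simp only [← mul_sum, ex_sum]
  have l2 : ∀ v S, Ti f y0 S → ∑ k ∈ S, L v k = 0 := fun v S a => by
    rw [l1]
    refine sum_eq_zero fun i _ => ?_
    by_cases c : i ∈ S
    · simp [c, r1 i S a c]
    · simp [c, show ρ i ∉ S from fun d => c (le_symm q h0 (r1 i) S a d)]
  have st : ∀ y ∈ Q f, ∃ s, St f y R s := fun y hy => by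
    have up : ∀ i j, le f y i j → ((∃ k, i ∈ X f y R k) ↔ ∃ k, j ∈ X f y R k) := fun i j b =>
      ⟨fun ⟨k, a⟩ => ⟨2 * k + 1, X_up (even_two_mul k) (X_mono (by omega) a) b⟩,
       fun ⟨k, a⟩ => ⟨2 * k + 1 + 1, X_dn (by simp) (X_mono (by omega) a) b⟩⟩
    have t1 : Ti f y (univ.filter fun i => ∃ k, i ∈ X f y R k) := ti_up m hy fun i a j b => by
      simp only [mem_filter, mem_univ, true_and] at a ⊢
      exact (up i j b).1 a
    have t2 : Ti f y (univ.filter fun i => ∃ k, i ∈ X f y R k)ᶜ := ti_up m hy fun i a j b => by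
      simp only [mem_compl, mem_filter, mem_univ, true_and] at a ⊢
      exact fun c => a ((up i j b).2 c)
    have t3 : Ti f y0 (univ.filter fun i => ∃ k, i ∈ X f y R k) := by
      have u := sum_add_sum_compl (univ.filter fun i => ∃ k, i ∈ X f y R k) y
      have v := sum_add_sum_compl (univ.filter fun i => ∃ k, i ∈ X f y R k) y0
      have := q.2 (univ.filter fun i => ∃ k, i ∈ X f y R k)
      have := q.2 (univ.filter fun i => ∃ k, i ∈ X f y R k)ᶜ
      have := q.1
      have := hy.1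
      unfold Ti at *
      linarith
    have a : ∀ i, ∃ k, i ∈ X f y R k := fun i => (mem_filter.1 (le_symm q h0 (r1 i) _ t3
      (mem_filter.2 ⟨mem_univ _, 0, (hR _).2 (r3 i)⟩))).2
    exact ⟨fun i => Nat.find (a i), fun i k =>
      ⟨fun b => Nat.find_min' _ b, fun b => X_mono b (Nat.find_spec (a i))⟩⟩
  let P : Finset ι → (ι → ℕ) → Prop := fun S s =>
    (∃ y, Gd f y R ∧ St f y R s) ∧ S = univ.filter fun i => ¬ Even (s i)
  refine ⟨Rᶜ, Rᶜ.powerset.image fun S => L fun i =>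
    wt (Fintype.card ι + 1) (Classical.epsilon (P S) i),
    card_image_le.trans (card_powerset _).le, fun v => ⟨L v, l2 v, fun k hk => ?_⟩,
    fun w hw => ?_, fun y hy => ?_⟩
  · rw [hL, sum_eq_single k]
    · simp [ex, show k ≠ ρ k from fun e => mem_compl.1 hk ((hR k).2 e.symm)]
    · intro i _ ne
      simp [ex, ne.symm, show k ≠ ρ i from fun e => mem_compl.1 hk ((hR k).2 (by rw [e, r3]))]
    · simp
  · obtain ⟨S, -, rfl⟩ := mem_image.1 hw
    exact l2 _
  obtain ⟨z, hz, a, b⟩ := vert hy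
  obtain ⟨s, hs⟩ := st z hz
  have g : Gd f z R := ⟨hz, fun r c r' c' i d e => by
    have : r' = r := by
      rw [← (hR r).1 c, ← (hR r').1 c']
      exact r2 _ _ fun A u v => e A (h0 A u z hz) (d A (h0 A u z hz) v)
    exact b i r e (this ▸ d)⟩
  have p : P (univ.filter fun i => ¬ Even (s i)) s := ⟨⟨z, g, hs⟩, rfl⟩
  obtain ⟨⟨z', g', hs'⟩, e⟩ := Classical.epsilon_spec ⟨s, p⟩
  have e' := canon m g hs g' hs' fun i => by
    have := Finset.ext_iff.1 e i
    simp only [mem_filter, mem_univ, true_and] at this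
    exact not_iff_not.1 this
  refine ⟨_, mem_image_of_mem (a := univ.filter fun i => ¬ Even (s i)) _ (mem_powerset.2
    fun i hi => mem_compl.2 fun c => ?_), fun A u v => ?_⟩
  · have := (hs i 0).1 c
    simp [show s i = 0 by omega] at hi
  rw [← e', l1]
  have u := a A u
  have Y := h0 _ (r4 fun j => j ∉ A) z hz
  have k : ∑ i, wt (Fintype.card ι + 1) (s i) *
      ((if i ∈ A then 1 else 0) - (if ρ i ∈ A then 1 else 0)) =
      ∑ i ∈ A ∩ univ.filter fun i => ρ i ∉ A, wt (Fintype.card ι + 1) (s i) -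
      ∑ i ∈ (A ∪ univ.filter fun i => ρ i ∉ A)ᶜ, wt (Fintype.card ι + 1) (s i) := by
    rw [← sum_ite_mem_eq (A ∩ _), ← sum_ite_mem_eq (A ∪ _)ᶜ, ← sum_sub_distrib]
    refine sum_congr rfl fun i _ => ?_
    by_cases c : i ∈ A <;> by_cases d : ρ i ∈ A <;> simp [c, d]
  have s1 := sgn_up hs (ti2 m hz u Y).2 fun r c d => by
    simp only [mem_inter, mem_filter, mem_univ, true_and, (hR r).1 c] at d
    exact d.2 d.1
  have s2 := sgn_dn (Z := (A ∪ univ.filter fun i => ρ i ∉ A)ᶜ) hs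
    (by rw [compl_compl]; exact (ti2 m hz u Y).1) fun r c d => by
    simp [(hR r).1 c] at d
  rw [k]
  rcases (A ∩ univ.filter fun i => ρ i ∉ A).eq_empty_or_nonempty with c | c <;>
    rcases (A ∪ univ.filter fun i => ρ i ∉ A)ᶜ.eq_empty_or_nonempty with d | d
  · refine absurd ?_ v
    convert r4 fun j => j ∈ A
    ext i
    have := Finset.ext_iff.1 c i
    have := Finset.ext_iff.1 d i
    simp only [mem_inter, mem_filter, mem_univ, true_and, mem_compl, mem_union,
      notMem_empty] at *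
    tauto
  · have := s2 d
    rw [c, sum_empty]
    linarith
  · have := s1 c
    rw [d, sum_empty]
    linarith
  · linarith [s1 c, s2 d]

theorem cover {E : Type} [NormedAddCommGroup E] [NormedSpace ℝ E] {A : Set E} (c : IsCompact A)
    (v : Convex ℝ A) (D : Finset E) (h : ∀ x ∈ A, ∃ w ∈ D, ∃ ε : ℝ, 0 < ε ∧ x + ε • w ∈ interior A) :
    ∃ ε : ℝ, ∀ x ∈ A, ∃ w ∈ D, x + ε • w ∈ interior A := by
  have k : ∀ x ∈ A, ∀ w, ∀ a b : ℝ, 0 < a → a ≤ b → x + b • w ∈ interior A →
      x + a • w ∈ interior A := fun x hx w a b h1 h2 h3 => by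
    have := v.add_smul_mem_interior hx h3 (t := a / b) ⟨div_pos h1 (h1.trans_le h2),
      (div_le_one (h1.trans_le h2)).2 h2⟩
    rwa [smul_smul, div_mul_cancel₀ _ (h1.trans_le h2).ne'] at this
  obtain ⟨t, ht⟩ := c.elim_finite_subcover
    (fun n : ℕ => ⋃ w ∈ D, (fun x => x + (1 / ((n : ℝ) + 1)) • w) ⁻¹' interior A)
    (fun n => isOpen_biUnion fun w _ => isOpen_interior.preimage (by fun_prop)) fun x hx => by
      obtain ⟨w, a, ε, b, d⟩ := h x hx
      obtain ⟨n, hn⟩ := exists_nat_one_div_lt b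
      exact Set.mem_iUnion.2 ⟨n, Set.mem_biUnion a (k x hx w _ _ (by positivity) hn.le d)⟩
  refine ⟨1 / (((t.sup id : ℕ) : ℝ) + 1), fun x hx => ?_⟩
  obtain ⟨n, a, b⟩ := Set.mem_iUnion₂.1 (ht hx)
  obtain ⟨w, d, e⟩ := Set.mem_iUnion₂.1 b
  exact ⟨w, d, k x hx w _ _ (by positivity) (Nat.one_div_le_one_div (le_sup (f := id) a)) e⟩

theorem Q_cpt : IsCompact (Q f) := by
  refine (isCompact_Icc (a := fun i => f univ - f {i}ᶜ) (b := fun i => f {i})).of_isClosed_subset
    ?_ fun y hy => ⟨fun i => ?_, fun i => by simpa using hy.2 {i}⟩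
  · have : Q f = {y | ∑ i, y i = f univ} ∩ ⋂ S, {y | ∑ i ∈ S, y i ≤ f S} := by
      ext y
      simp [Q]
    rw [this]
    exact (isClosed_eq (by fun_prop) continuous_const).inter
      (isClosed_iInter fun S => isClosed_le (by fun_prop) continuous_const)
  · have := sum_add_sum_compl {i} y
    have := hy.2 {i}ᶜ
    have := hy.1
    simp only [sum_singleton] at *
    linarith

theorem Q_cvx : Convex ℝ (Q f) := fun x hx y hy a b ha hb e => by
  refine ⟨?_, fun S => ?_⟩ <;>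
    simp only [Pi.add_apply, Pi.smul_apply, smul_eq_mul, sum_add_distrib, ← mul_sum]
  · rw [hx.1, hy.1, ← add_mul, e, one_mul]
  · have : a * f S + b * f S = f S := by rw [← add_mul, e, one_mul]
    linarith [mul_le_mul_of_nonneg_left (hx.2 S) ha, mul_le_mul_of_nonneg_left (hy.2 S) hb]

theorem main {d : ℕ} (m : SM f) (A : Set (EuclideanSpace ℝ (Fin d)))
    (φ : EuclideanSpace ℝ (Fin d) →ᵃ[ℝ] (ι → ℝ)) (hφ : Function.Injective φ)
    (hA : φ '' A = Q f) (hi : (interior A).Nonempty) :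
    ∃ T : Finset (EuclideanSpace ℝ (Fin d)), #T ≤ 2 ^ d ∧ ∀ x ∈ A, ∃ t ∈ T, x - t ∈ interior A := by
  classical
  obtain ⟨x0, hx0⟩ := hi
  have pre : A = φ ⁻¹' Q f := by rw [← hA, Set.preimage_image_eq _ hφ]
  have mem : ∀ x, x ∈ A ↔ φ x ∈ Q f := fun x => by rw [pre]; rfl
  have ct : Continuous φ := φ.continuous_of_finiteDimensional
  have ad : ∀ x v (t : ℝ), φ (x + t • v) = φ x + t • φ.linear v := fun x v t => by
    rw [add_comm, ← vadd_eq_add, φ.map_vadd, map_smul, vadd_eq_add, add_comm]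
  have q := (mem x0).1 (interior_subset hx0)
  have z : ∀ S, Ti f (φ x0) S → ∀ v, ∑ i ∈ S, φ.linear v i = 0 := fun S a => by
    have : ∀ v, ∑ i ∈ S, φ.linear v i ≤ 0 := fun v => by
      have c : Continuous fun t : ℝ => x0 + t • v := by fun_prop
      have := (c.tendsto 0).eventually (isOpen_interior.mem_nhds (by simpa using hx0))
      obtain ⟨t, h1, h2⟩ := ((this.filter_mono nhdsWithin_le_nhds).and
        (self_mem_nhdsWithin (s := Set.Ioi 0))).exists
      have := ((mem _).1 (interior_subset h1)).2 S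
      unfold Ti at a
      simp only [ad, Pi.add_apply, Pi.smul_apply, smul_eq_mul, sum_add_distrib, ← mul_sum, a] at this
      exact nonpos_of_mul_nonpos_right (by linarith) h2
    intro v
    have b := this (-v)
    simp only [map_neg, Pi.neg_apply, sum_neg_distrib] at b
    linarith [this v]
  have z' : ∀ S, Ti f (φ x0) S → ∀ x, Ti f (φ x) S := fun S a x => by
    have := ad x0 (x - x0) 1
    simp only [one_smul, add_sub_cancel] at this
    unfold Ti at *
    simp [this, sum_add_distrib, a, z S a]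
  have lf : ∀ w : ι → ℝ, (∀ S, Ti f (φ x0) S → ∑ i ∈ S, w i = 0) → ∃ v, φ.linear v = w := fun w hw => by
    obtain ⟨ε, e0, e⟩ := feas q (hw _ q.1) fun A a => (hw A a).le
    obtain ⟨x, -, hx⟩ := hA.ge e
    refine ⟨ε⁻¹ • (x - x0), ?_⟩
    rw [map_smul, ← vsub_eq_sub, φ.linearMap_vsub, hx, vsub_eq_sub, add_sub_cancel_left, smul_smul,
      inv_mul_cancel₀ e0.ne', one_smul]
  obtain ⟨N, D, c1, c2, c3, c4⟩ := comb m q fun S a y hy => by
    obtain ⟨x, -, rfl⟩ := hA.ge hy
    exact z' S a x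
  have dN : #N ≤ d := by
    have := LinearMap.finrank_le_finrank_of_surjective
      (f := (LinearMap.funLeft ℝ ℝ (Subtype.val : N → ι)).comp φ.linear) fun u => by
        obtain ⟨w, a, b⟩ := c2 fun i => if h : i ∈ N then u ⟨i, h⟩ else 0
        obtain ⟨v, rfl⟩ := lf w a
        exact ⟨v, funext fun i => by simpa [i.2] using b i i.2⟩
    simpa using this
  choose! g hg using fun w hw => lf w (c3 w hw)
  have cp : IsCompact A := by
    have := (LinearMap.isClosedEmbedding_of_injective (f := φ.linear) (LinearMap.ker_eq_bot.2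
      (φ.linear_injective_iff.2 hφ))).isCompact_preimage
      (Q_cpt (f := f) |>.image (continuous_id.sub (continuous_const (y := φ 0))))
    convert this
    ext x
    have := ad 0 x 1
    simp only [one_smul, zero_add] at this
    rw [mem, this]
    simp [sub_eq_iff_eq_add']
  obtain ⟨ε, hε⟩ := cover cp (pre ▸ Q_cvx.affine_preimage φ) (D.image g) fun x hx => by
    obtain ⟨w, a, b⟩ := c4 _ ((mem x).1 hx)
    refine ⟨_, mem_image_of_mem _ a, ?_⟩
    have : ∀ S : Finset ι, ∀ᶠ ε : ℝ in nhdsWithin 0 (Set.Ioi 0), ¬ Ti f (φ x0) S →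
        ∑ i ∈ S, φ x i + ε * ∑ i ∈ S, w i < f S := by
      intro S
      by_cases u : Ti f (φ x) S
      · filter_upwards [self_mem_nhdsWithin] with ε hε n
        have := mul_neg_of_pos_of_neg hε (b S u n)
        unfold Ti at u
        linarith
      · have c : Continuous fun ε : ℝ => ∑ i ∈ S, φ x i + ε * ∑ i ∈ S, w i := by fun_prop
        have := (c.tendsto 0).eventually_lt_const (u := f S)
          (by simpa using lt_of_le_of_ne (((mem x).1 hx).2 S) u)
        exact (this.mono fun _ h _ => h).filter_mono nhdsWithin_le_nhds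
    obtain ⟨ε, h1, h2⟩ := ((Filter.eventually_all.2 this).and self_mem_nhdsWithin).exists
    refine ⟨ε, h2, interior_maximal (t := ⋂ S : {S // ¬ Ti f (φ x0) S},
      {x | ∑ i ∈ S.1, φ x i < f S.1}) (fun p hp => (mem p).2 ⟨z' _ q.1 p, fun S => ?_⟩)
      (isOpen_iInter_of_finite fun S => isOpen_lt (by fun_prop) continuous_const)
      (Set.mem_iInter.2 fun S => ?_)⟩
    · by_cases u : Ti f (φ x0) S
      · exact (z' S u p).le
      · exact (Set.mem_iInter.1 hp ⟨S, u⟩).le
    · simpa [ad, hg w a, sum_add_distrib, ← mul_sum] using h1 S.1 S.2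
  refine ⟨(D.image g).image fun w => -(ε • w), card_image_le.trans (card_image_le.trans
    (c1.trans (Nat.pow_le_pow_right (by norm_num) dN))), fun x hx => ?_⟩
  obtain ⟨w, a, b⟩ := hε x hx
  exact ⟨_, mem_image_of_mem _ a, by simpa using b⟩

end Pool.Agent.H.MP_eba1ef_gt
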